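import Mathlib
import Pool.Agent.Helper178.GramLfp

set_option autoImplicit false
set_option linter.all false

namespace Pool.Agent.Results.MP_435286_al.InfinitelyGeneratedUnits

open Symbol Pool.Agent.Helper178.Gram

/-- The three generators. -/
inductive A3
  | a
  | x
  | y
  deriving DecidableEq

open A3

instance : Fintype A3 := ⟨{a, x, y}, by intro c; cases c <;> simp⟩

/-- The word `x a^n y`. -/
def bl (n : ℕ) : List A3 := x :: (List.replicate n a ++ [y])

/-- The relations `(x a^n y)^2 = 1`. -/
def rels (u v : FreeMonoid A3) : Prop := ∃ n : ℕ, u = FreeMonoid.ofList (bl n ++ bl n) ∧ v = 1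

/-- The monoid. -/
abbrev M : Type := PresentedMonoid rels

/-- Evaluation of words. -/
def mkw (l : List A3) : M := (l.map (PresentedMonoid.of rels)).prod

theorem mkw_nil : mkw [] = 1 := rfl
theorem mkw_cons (c : A3) (l : List A3) : mkw (c :: l) = PresentedMonoid.of rels c * mkw l := by
  simp [mkw]
theorem mkw_append (l l' : List A3) : mkw (l ++ l') = mkw l * mkw l' := by
  simp [mkw]

theorem mk_ofList (l : List A3) : PresentedMonoid.mk rels (FreeMonoid.ofList l) = mkw l := by
  induction l with
  | nil => rfl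
  | cons c l ih =>
    rw [mkw_cons, ← ih, FreeMonoid.ofList_cons, map_mul]
    rfl

theorem bl_sq (n : ℕ) : mkw (bl n) * mkw (bl n) = 1 := by
  rw [← mkw_append, ← mk_ofList]
  exact PresentedMonoid.mk_eq_mk_of_rel ⟨n, rfl, rfl⟩

/-! ### The stack machine; stacks are written with the top first -/

/-- The top part of a stack that is removed when `y` is read. -/
def pat (n : ℕ) : List A3 := List.replicate n a ++ x :: y :: (List.replicate n a ++ [x])

theorem rep_inj : ∀ (n m : ℕ) (r r' : List A3), List.replicate n a ++ x :: r =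
    List.replicate m a ++ x :: r' → n = m ∧ r = r' := by
  intro n
  induction n with
  | zero =>
    intro m r r' h
    cases m with
    | zero => simpa using h
    | succ m => simp [List.replicate_succ] at h
  | succ n ih =>
    intro m r r' h
    cases m with
    | zero => simp [List.replicate_succ] at h
    | succ m =>
      simp only [List.replicate_succ, List.cons_append, List.cons.injEq, true_and] at h
      obtain ⟨h1, h2⟩ := ih m r r' h
      exact ⟨by rw [h1], h2⟩

theorem pat_append (n : ℕ) (t : List A3) :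
    pat n ++ t = List.replicate n a ++ x :: (y :: (List.replicate n a ++ x :: t)) := by
  simp [pat]

theorem pat_inj {n m : ℕ} {t t' : List A3} (h : pat n ++ t = pat m ++ t') : n = m ∧ t = t' := by
  rw [pat_append, pat_append] at h
  obtain ⟨h1, h2⟩ := rep_inj _ _ _ _ h
  subst h1
  simp only [List.cons.injEq, true_and, List.append_cancel_left_eq] at h2
  exact ⟨rfl, h2⟩

open Classical in
/-- Reading a letter. -/
noncomputable def step (c : A3) (s : List A3) : List A3 :=
  if h : c = y ∧ ∃ t n, s = pat n ++ t then h.2.choose else c :: s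

theorem step_pop (n : ℕ) (t : List A3) : step y (pat n ++ t) = t := by
  have h : (y = y ∧ ∃ t' m, pat n ++ t = pat m ++ t') := ⟨rfl, t, n, rfl⟩
  unfold step
  rw [dif_pos h]
  obtain ⟨m, hm⟩ := h.2.choose_spec
  exact (pat_inj hm).2.symm

theorem step_push {c : A3} {s : List A3} (h : ¬ (c = y ∧ ∃ t n, s = pat n ++ t)) :
    step c s = c :: s := by
  unfold step
  rw [dif_neg h]

theorem step_a (s : List A3) : step a s = a :: s := step_push (by simp)
theorem step_x (s : List A3) : step x s = x :: s := step_push (by simp)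

/-- Running a word from left to right. -/
noncomputable def run (w : List A3) (s : List A3) : List A3 := w.foldl (fun s c => step c s) s

theorem run_nil (s : List A3) : run [] s = s := rfl
theorem run_cons (c : A3) (w s : List A3) : run (c :: w) s = run w (step c s) := rfl
theorem run_append (w w' s : List A3) : run (w ++ w') s = run w' (run w s) := by
  simp [run, List.foldl_append]

theorem run_rep (n : ℕ) (s : List A3) : run (List.replicate n a) s = List.replicate n a ++ s := by
  induction n generalizing s with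
  | zero => rfl
  | succ n ih =>
    rw [List.replicate_succ, run_cons, step_a, ih, ← List.replicate_succ, List.replicate_succ',
      List.append_assoc]
    rfl

/-- A block on the stack. -/
def B (n : ℕ) : List A3 := y :: (List.replicate n a ++ [x])

theorem run_bl_pop (n : ℕ) (t : List A3) : run (bl n) (B n ++ t) = t := by
  unfold bl
  rw [run_cons, step_x, run_append, run_rep, run_cons, run_nil]
  have : List.replicate n a ++ x :: (B n ++ t) = pat n ++ t := by
    rw [pat_append]; simp [B]
  rw [this, step_pop]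

theorem run_bl_push (n : ℕ) (s : List A3) (h : ¬ ∃ t, s = B n ++ t) :
    run (bl n) s = B n ++ s := by
  unfold bl
  rw [run_cons, step_x, run_append, run_rep, run_cons, run_nil, step_push]
  · simp [B]
  · rintro ⟨-, t, m, hm⟩
    rw [pat_append] at hm
    obtain ⟨h1, h2⟩ := rep_inj _ _ _ _ hm
    subst h1
    exact h ⟨t, by rw [h2]; simp [B]⟩

/-- Reduced stacks. -/
def Red (s : List A3) : Prop := ¬ ∃ p n t, s = p ++ y :: (pat n ++ t)

theorem Red.tail {c : A3} {s : List A3} (h : Red (c :: s)) : Red s := by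
  rintro ⟨p, n, t, rfl⟩
  exact h ⟨c :: p, n, t, rfl⟩

theorem Red.of_append {p s : List A3} (h : Red (p ++ s)) : Red s := by
  induction p with
  | nil => exact h
  | cons c p ih => exact ih h.tail

theorem red_step {c : A3} {s : List A3} (h : Red s) : Red (step c s) := by
  by_cases hc : c = y ∧ ∃ t n, s = pat n ++ t
  · obtain ⟨rfl, t, n, rfl⟩ := hc
    rw [step_pop]
    exact h.of_append
  · rw [step_push hc]
    rintro ⟨p, n, t, ht⟩
    cases p with
    | nil =>
      simp only [List.nil_append, List.cons.injEq] at ht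
      exact hc ⟨ht.1, t, n, ht.2⟩
    | cons d p =>
      simp only [List.cons_append, List.cons.injEq] at ht
      exact h ⟨p, n, t, ht.2⟩

theorem red_nil : Red [] := by
  rintro ⟨p, n, t, h⟩
  simp at h

theorem red_run (w : List A3) {s : List A3} (h : Red s) : Red (run w s) := by
  induction w generalizing s with
  | nil => exact h
  | cons c w ih => exact ih (red_step h)

theorem run_bl_bl (n : ℕ) {s : List A3} (h : Red s) : run (bl n ++ bl n) s = s := by
  rw [run_append]
  by_cases hs : ∃ t, s = B n ++ t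
  · obtain ⟨t, rfl⟩ := hs
    rw [run_bl_pop, run_bl_push]
    rintro ⟨t', rfl⟩
    apply h
    refine ⟨[], n, t', ?_⟩
    rw [pat_append]
    simp [B]
  · rw [run_bl_push n s hs, run_bl_pop]

/-- The state space. -/
def Q : Type := {s : List A3 // Red s}

/-- The action of a letter. -/
noncomputable def stepQ (c : A3) : Function.End Q := fun q => ⟨step c q.1, red_step q.2⟩

theorem lift_stepQ (w : List A3) (q : Q) :
    ((FreeMonoid.lift (fun c : A3 => MulOpposite.op (stepQ c)) (FreeMonoid.ofList w) :
      (Function.End Q)ᵐᵒᵖ).unop q) = (⟨run w q.1, red_run w q.2⟩ : Q) := by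
  induction w generalizing q with
  | nil => rfl
  | cons c w ih =>
    rw [FreeMonoid.ofList_cons, map_mul, MulOpposite.unop_mul, FreeMonoid.lift_eval_of]
    exact ih _

/-- The action. -/
noncomputable def act : M →* (Function.End Q)ᵐᵒᵖ :=
  PresentedMonoid.lift (fun c => MulOpposite.op (stepQ c))
    (by
      rintro u v ⟨n, rfl, rfl⟩
      apply MulOpposite.unop_injective
      funext q
      rw [lift_stepQ]
      exact Subtype.ext (run_bl_bl n q.2))

theorem act_mkw (w : List A3) (q : Q) :
    ((act (mkw w)).unop q) = (⟨run w q.1, red_run w q.2⟩ : Q) := by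
  rw [← lift_stepQ, ← mk_ofList]
  rfl

/-- Normal forms (reversed). -/
noncomputable def nf (w : List A3) : List A3 := run w []

theorem nf_eq {w w' : List A3} (h : mkw w = mkw w') : nf w = nf w' := by
  have h1 := act_mkw w ⟨[], red_nil⟩
  have h2 := act_mkw w' ⟨[], red_nil⟩
  rw [h] at h1
  exact congrArg Subtype.val (h1.symm.trans h2)

/-- The element of `M` given by a stack. -/
def mks (s : List A3) : M := mkw s.reverse

theorem mks_step (c : A3) (s : List A3) : mks (step c s) = mks s * PresentedMonoid.of rels c := by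
  by_cases hc : c = y ∧ ∃ t n, s = pat n ++ t
  · obtain ⟨rfl, t, n, rfl⟩ := hc
    rw [step_pop]
    have h1 : mks (pat n ++ t) * PresentedMonoid.of rels y = mks t * (mkw (bl n) * mkw (bl n)) := by
      unfold mks
      have : (PresentedMonoid.of rels y) = mkw [y] := by simp [mkw]
      rw [this, ← mkw_append, ← mkw_append, ← mkw_append]
      congr 1
      simp [pat, bl]
    rw [h1, bl_sq, mul_one]
  · rw [step_push hc]
    unfold mks
    rw [List.reverse_cons, mkw_append]
    simp [mkw]

theorem mks_run (w : List A3) (s : List A3) : mks (run w s) = mks s * mkw w := by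
  induction w generalizing s with
  | nil => rw [run_nil, mkw_nil, mul_one]
  | cons c w ih => rw [run_cons, ih, mks_step, mkw_cons, mul_assoc]

theorem mks_nf (w : List A3) : mks (nf w) = mkw w := by
  rw [nf, mks_run]
  show mkw [] * _ = _
  rw [mkw_nil, one_mul]

/-! ### The grammar -/

/-- Nonterminals. -/
inductive Nt
  | D
  | E
  | Dr
  | Er
  | S
  deriving DecidableEq

/-- The rules. -/
def rl : List (ContextFreeRule (Option A3) Nt) := [
  ⟨.D, []⟩,
  ⟨.D, [nonterminal .D, nonterminal .D]⟩,
  ⟨.D, [terminal (some x), nonterminal .E, terminal (some y)]⟩,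
  ⟨.E, [terminal (some y), nonterminal .D, terminal (some x)]⟩,
  ⟨.E, [terminal (some a), nonterminal .E, terminal (some a)]⟩,
  ⟨.E, [nonterminal .D, nonterminal .E]⟩,
  ⟨.E, [nonterminal .E, nonterminal .D]⟩,
  ⟨.Dr, []⟩,
  ⟨.Dr, [nonterminal .Dr, nonterminal .Dr]⟩,
  ⟨.Dr, [terminal (some y), nonterminal .Er, terminal (some x)]⟩,
  ⟨.Er, [terminal (some x), nonterminal .Dr, terminal (some y)]⟩,
  ⟨.Er, [terminal (some a), nonterminal .Er, terminal (some a)]⟩,
  ⟨.Er, [nonterminal .Dr, nonterminal .Er]⟩,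
  ⟨.Er, [nonterminal .Er, nonterminal .Dr]⟩,
  ⟨.S, [terminal none]⟩,
  ⟨.S, [nonterminal .D, nonterminal .S]⟩,
  ⟨.S, [nonterminal .S, nonterminal .Dr]⟩,
  ⟨.S, [terminal (some a), nonterminal .S, terminal (some a)]⟩,
  ⟨.S, [terminal (some x), nonterminal .S, terminal (some x)]⟩,
  ⟨.S, [terminal (some y), nonterminal .S, terminal (some y)]⟩]

/-- The grammar. -/
def gr : ContextFreeGrammar (Option A3) where
  NT := Nt
  initial := Nt.S
  rules := rl.toFinset

/-- Words derived from a nonterminal. -/
def G (A : Nt) (w : List (Option A3)) : Prop := Der gr A w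

theorem G_rule {r : ContextFreeRule (Option A3) Nt} (hr : r ∈ rl) {w : List (Option A3)}
    (h : Yl G r.output w) : G r.input w :=
  complete (g := gr) (r := r) (show r ∈ rl.toFinset from List.mem_toFinset.2 hr) h

/-- the word of letters -/
def so (u : List A3) : List (Option A3) := u.map some

/-- Interpretation. -/
def I : Nt → List (Option A3) → Prop
  | .D, w => ∃ u, w = so u ∧ mkw u = 1
  | .E, w => ∃ u n, w = so u ∧ mkw u = mkw (List.replicate n a ++ y :: x :: List.replicate n a)
  | .Dr, w => ∃ u, w = (so u).reverse ∧ mkw u = 1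
  | .Er, w => ∃ u n, w = (so u).reverse ∧
      mkw u = mkw (List.replicate n a ++ y :: x :: List.replicate n a)
  | .S, w => ∃ u v, w = so u ++ none :: (so v).reverse ∧ mkw u = mkw v

theorem so_append (u v : List A3) : so (u ++ v) = so u ++ so v := by simp [so]
theorem so_cons (c : A3) (u : List A3) : so (c :: u) = some c :: so u := rfl

theorem rep_mid (n : ℕ) : mkw (a :: (List.replicate n a ++ y :: x :: List.replicate n a) ++ [a]) =
    mkw (List.replicate (n + 1) a ++ y :: x :: List.replicate (n + 1) a) := by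
  congr 1
  have h : List.replicate n a ++ [a] = a :: List.replicate n a := by
    rw [← List.replicate_succ', List.replicate_succ]
  simp [List.replicate_succ, h]

theorem xEy (n : ℕ) : mkw (x :: (List.replicate n a ++ y :: x :: List.replicate n a) ++ [y]) = 1 := by
  rw [← bl_sq n, ← mkw_append]
  congr 1
  simp [bl]


theorem mem_rl {r : ContextFreeRule (Option A3) Nt} (hr : r ∈ rl.toFinset) : r ∈ rl :=
  List.mem_toFinset.1 hr

theorem rl_cases {P : ContextFreeRule (Option A3) Nt → Prop} (h : ∀ r ∈ rl, P r) :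
    ∀ r ∈ gr.rules, P r := fun r hr => h r (mem_rl hr)

theorem yl_nil {N T : Type} {J : N → List T → Prop} {w : List T} : Yl J [] w ↔ w = [] := Iff.rfl

theorem sound_rules : ∀ r ∈ gr.rules, ∀ w, Yl I r.output w → I r.input w := by
  refine rl_cases (P := fun r => ∀ w, Yl I r.output w → I r.input w) ?_
  intro r hr' w hw
  simp only [rl, List.mem_cons, List.not_mem_nil, or_false] at hr'
  rcases hr' with rfl | rfl | rfl | rfl | rfl | rfl | rfl | rfl | rfl | rfl | rfl | rfl | rfl |
    rfl | rfl | rfl | rfl | rfl | rfl | rfl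
  · exact ⟨[], hw, mkw_nil⟩
  · obtain ⟨w1, w2, rfl, ⟨u, rfl, hu⟩, w3, w4, rfl, ⟨v, rfl, hv⟩, h⟩ := hw
    rw [yl_nil] at h; subst h
    exact ⟨u ++ v, by simp [so], by rw [mkw_append, hu, hv, one_mul]⟩
  · obtain ⟨w', rfl, w1, w2, rfl, ⟨u, n, rfl, hu⟩, w3, rfl, h⟩ := hw
    rw [yl_nil] at h; subst h
    refine ⟨x :: u ++ [y], by simp [so], ?_⟩
    rw [← xEy n, mkw_append, mkw_cons x u, hu, ← mkw_cons, ← mkw_append]
  · obtain ⟨w', rfl, w1, w2, rfl, ⟨u, rfl, hu⟩, w3, rfl, h⟩ := hw
    rw [yl_nil] at h; subst h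
    refine ⟨y :: u ++ [x], 0, by simp [so], ?_⟩
    rw [mkw_append, mkw_cons, hu]
    simp [mkw]
  · obtain ⟨w', rfl, w1, w2, rfl, ⟨u, n, rfl, hu⟩, w3, rfl, h⟩ := hw
    rw [yl_nil] at h; subst h
    refine ⟨a :: u ++ [a], n + 1, by simp [so], ?_⟩
    rw [← rep_mid n, mkw_append, mkw_cons a u, hu, ← mkw_cons, ← mkw_append]
  · obtain ⟨w1, w2, rfl, ⟨u, rfl, hu⟩, w3, w4, rfl, ⟨v, n, rfl, hv⟩, h⟩ := hw
    rw [yl_nil] at h; subst h
    exact ⟨u ++ v, n, by simp [so], by rw [mkw_append, hu, hv, one_mul]⟩
  · obtain ⟨w1, w2, rfl, ⟨u, n, rfl, hu⟩, w3, w4, rfl, ⟨v, rfl, hv⟩, h⟩ := hw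
    rw [yl_nil] at h; subst h
    exact ⟨u ++ v, n, by simp [so], by rw [mkw_append, hu, hv, mul_one]⟩
  · exact ⟨[], hw, mkw_nil⟩
  · obtain ⟨w1, w2, rfl, ⟨u, rfl, hu⟩, w3, w4, rfl, ⟨v, rfl, hv⟩, h⟩ := hw
    rw [yl_nil] at h; subst h
    exact ⟨v ++ u, by simp [so], by rw [mkw_append, hu, hv, one_mul]⟩
  · obtain ⟨w', rfl, w1, w2, rfl, ⟨u, n, rfl, hu⟩, w3, rfl, h⟩ := hw
    rw [yl_nil] at h; subst h
    refine ⟨x :: u ++ [y], by simp [so], ?_⟩
    rw [← xEy n, mkw_append, mkw_cons x u, hu, ← mkw_cons, ← mkw_append]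
  · obtain ⟨w', rfl, w1, w2, rfl, ⟨u, rfl, hu⟩, w3, rfl, h⟩ := hw
    rw [yl_nil] at h; subst h
    refine ⟨y :: u ++ [x], 0, by simp [so], ?_⟩
    rw [mkw_append, mkw_cons, hu]
    simp [mkw]
  · obtain ⟨w', rfl, w1, w2, rfl, ⟨u, n, rfl, hu⟩, w3, rfl, h⟩ := hw
    rw [yl_nil] at h; subst h
    refine ⟨a :: u ++ [a], n + 1, by simp [so], ?_⟩
    rw [← rep_mid n, mkw_append, mkw_cons a u, hu, ← mkw_cons, ← mkw_append]
  · obtain ⟨w1, w2, rfl, ⟨u, rfl, hu⟩, w3, w4, rfl, ⟨v, n, rfl, hv⟩, h⟩ := hw
    rw [yl_nil] at h; subst h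
    exact ⟨v ++ u, n, by simp [so], by rw [mkw_append, hu, hv, mul_one]⟩
  · obtain ⟨w1, w2, rfl, ⟨u, n, rfl, hu⟩, w3, w4, rfl, ⟨v, rfl, hv⟩, h⟩ := hw
    rw [yl_nil] at h; subst h
    exact ⟨v ++ u, n, by simp [so], by rw [mkw_append, hu, hv, one_mul]⟩
  · obtain ⟨w', rfl, h⟩ := hw
    rw [yl_nil] at h; subst h
    exact ⟨[], [], rfl, rfl⟩
  · obtain ⟨w1, w2, rfl, ⟨u, rfl, hu⟩, w3, w4, rfl, ⟨v, v', rfl, hv⟩, h⟩ := hw
    rw [yl_nil] at h; subst h
    exact ⟨u ++ v, v', by simp [so], by rw [mkw_append, hu, hv, one_mul]⟩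
  · obtain ⟨w1, w2, rfl, ⟨v, v', rfl, hv⟩, w3, w4, rfl, ⟨u, rfl, hu⟩, h⟩ := hw
    rw [yl_nil] at h; subst h
    exact ⟨v, u ++ v', by simp [so], by rw [mkw_append, hu, hv, one_mul]⟩
  · obtain ⟨w', rfl, w1, w2, rfl, ⟨v, v', rfl, hv⟩, w3, rfl, h⟩ := hw
    rw [yl_nil] at h; subst h
    exact ⟨a :: v, a :: v', by simp [so], by rw [mkw_cons, mkw_cons, hv]⟩
  · obtain ⟨w', rfl, w1, w2, rfl, ⟨v, v', rfl, hv⟩, w3, rfl, h⟩ := hw
    rw [yl_nil] at h; subst h
    exact ⟨x :: v, x :: v', by simp [so], by rw [mkw_cons, mkw_cons, hv]⟩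
  · obtain ⟨w', rfl, w1, w2, rfl, ⟨v, v', rfl, hv⟩, w3, rfl, h⟩ := hw
    rw [yl_nil] at h; subst h
    exact ⟨y :: v, y :: v', by simp [so], by rw [mkw_cons, mkw_cons, hv]⟩

/-! ### Closure properties of the generated sets -/

theorem D_nil : G .D [] := G_rule (r := ⟨.D, []⟩) (by simp [rl]) rfl
theorem Dr_nil : G .Dr [] := G_rule (r := ⟨.Dr, []⟩) (by simp [rl]) rfl
theorem S_hash : G .S [none] :=
  G_rule (r := ⟨.S, [terminal none]⟩) (by simp [rl]) ⟨[], rfl, rfl⟩

theorem two {A B C : Nt} (hr : (⟨A, [nonterminal B, nonterminal C]⟩ :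
    ContextFreeRule (Option A3) Nt) ∈ rl) {u v : List (Option A3)} (hu : G B u) (hv : G C v) :
    G A (u ++ v) := by
  refine G_rule hr ⟨u, v, rfl, hu, v, [], by simp, hv, rfl⟩

theorem wrap {A B : Nt} {c d : Option A3} (hr : (⟨A, [terminal c, nonterminal B, terminal d]⟩ :
    ContextFreeRule (Option A3) Nt) ∈ rl) {u : List (Option A3)} (hu : G B u) :
    G A (c :: (u ++ [d])) := by
  refine G_rule hr ⟨u ++ [d], rfl, u, [d], rfl, hu, [], rfl, rfl⟩

theorem D_rev {w : List (Option A3)} (h : G .D w) : G .Dr w.reverse := by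
  let J : Nt → List (Option A3) → Prop := fun A w => match A with
    | .D => G .Dr w.reverse
    | .E => G .Er w.reverse
    | _ => True
  have hJ : ∀ r ∈ gr.rules, ∀ w, Yl J r.output w → J r.input w := by
    refine rl_cases (P := fun r => ∀ w, Yl J r.output w → J r.input w) ?_
    intro r hr' w hw
    simp only [rl, List.mem_cons, List.not_mem_nil, or_false] at hr'
    rcases hr' with rfl | rfl | rfl | rfl | rfl | rfl | rfl | rfl | rfl | rfl | rfl | rfl | rfl |
      rfl | rfl | rfl | rfl | rfl | rfl | rfl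
    · have : w = [] := hw
      subst this
      exact Dr_nil
    · obtain ⟨w1, w2, rfl, h1, w3, w4, rfl, h2, h⟩ := hw
      rw [yl_nil] at h; subst h
      show G .Dr _
      rw [List.append_nil, List.reverse_append]
      exact two (by simp [rl]) h2 h1
    · obtain ⟨w', rfl, w1, w2, rfl, h1, w3, rfl, h⟩ := hw
      rw [yl_nil] at h; subst h
      show G .Dr _
      have := wrap (A := .Dr) (B := .Er) (c := some y) (d := some x) (by simp [rl]) h1
      simpa using this
    · obtain ⟨w', rfl, w1, w2, rfl, h1, w3, rfl, h⟩ := hw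
      rw [yl_nil] at h; subst h
      show G .Er _
      have := wrap (A := .Er) (B := .Dr) (c := some x) (d := some y) (by simp [rl]) h1
      simpa using this
    · obtain ⟨w', rfl, w1, w2, rfl, h1, w3, rfl, h⟩ := hw
      rw [yl_nil] at h; subst h
      show G .Er _
      have := wrap (A := .Er) (B := .Er) (c := some a) (d := some a) (by simp [rl]) h1
      simpa using this
    · obtain ⟨w1, w2, rfl, h1, w3, w4, rfl, h2, h⟩ := hw
      rw [yl_nil] at h; subst h
      show G .Er _
      rw [List.append_nil, List.reverse_append]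
      exact two (by simp [rl]) h2 h1
    · obtain ⟨w1, w2, rfl, h1, w3, w4, rfl, h2, h⟩ := hw
      rw [yl_nil] at h; subst h
      show G .Er _
      rw [List.append_nil, List.reverse_append]
      exact two (by simp [rl]) h2 h1
    all_goals trivial
  have h1 := sound (g := gr) hJ (s := [nonterminal Nt.D]) h
  obtain ⟨w1, w2, rfl, h2, h3⟩ := h1
  have h3' : w2 = [] := h3
  subst h3'
  rw [List.append_nil]
  exact h2

/-- Words that push the stack `s`, up to trivial pieces. -/
def LDs : List A3 → List (Option A3) → Prop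
  | [], w => G .D w
  | c :: s, w => ∃ u v, w = u ++ some c :: v ∧ LDs s u ∧ G .D v

theorem LDs_append {s : List A3} {w v : List (Option A3)} (h : LDs s w) (hv : G .D v) :
    LDs s (w ++ v) := by
  cases s with
  | nil => exact two (by simp [rl]) h hv
  | cons c s =>
    obtain ⟨u, u', rfl, h1, h2⟩ := h
    exact ⟨u, u' ++ v, by simp, h1, two (by simp [rl]) h2 hv⟩

theorem LDs_mid (n : ℕ) : ∀ (r : List A3) (w : List (Option A3)),
    LDs (List.replicate n a ++ x :: y :: (List.replicate n a ++ r)) w →
    ∃ w1 w2, w = w1 ++ w2 ∧ LDs r w1 ∧ G .E w2 := by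
  induction n with
  | zero =>
    intro r w h
    obtain ⟨u, v, rfl, ⟨u', v', rfl, h1, h2⟩, h3⟩ := h
    refine ⟨u', some y :: v' ++ some x :: v, by simp, h1, ?_⟩
    have h4 : G .E (some y :: (v' ++ [some x])) := wrap (by simp [rl]) h2
    have h5 : G .E ((some y :: (v' ++ [some x])) ++ v) := two (by simp [rl]) h4 h3
    simpa using h5
  | succ n ih =>
    intro r w h
    have e : List.replicate (n + 1) a ++ x :: y :: (List.replicate (n + 1) a ++ r) =
        a :: (List.replicate n a ++ x :: y :: (List.replicate n a ++ (a :: r))) := by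
      rw [List.replicate_succ, List.cons_append]
      congr 4
      rw [← List.replicate_succ, List.replicate_succ', List.append_assoc]
      rfl
    rw [e] at h
    obtain ⟨u, v, rfl, h1, h2⟩ := h
    obtain ⟨w1, w2, rfl, ⟨u1, d, rfl, h3, h4⟩, h5⟩ := ih _ _ h1
    refine ⟨u1, some a :: (d ++ w2 ++ [some a]) ++ v, by simp, h3, ?_⟩
    have h6 : G .E (d ++ w2) := two (by simp [rl]) h4 h5
    have h7 : G .E (some a :: ((d ++ w2) ++ [some a])) := wrap (by simp [rl]) h6
    exact two (by simp [rl]) h7 h2

theorem LDs_step (c : A3) {s : List A3} {w : List (Option A3)} (h : LDs s w) :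
    LDs (step c s) (w ++ [some c]) := by
  by_cases hc : c = y ∧ ∃ t n, s = pat n ++ t
  · obtain ⟨rfl, t, n, rfl⟩ := hc
    rw [step_pop]
    have e : pat n ++ t = List.replicate n a ++ x :: y :: (List.replicate n a ++ (x :: t)) := by
      rw [pat_append]
    rw [e] at h
    obtain ⟨w1, w2, rfl, ⟨u1, d, rfl, h3, h4⟩, h5⟩ := LDs_mid n _ _ h
    have h6 : G .E (d ++ w2) := two (by simp [rl]) h4 h5
    have h7 : G .D (some x :: ((d ++ w2) ++ [some y])) := wrap (by simp [rl]) h6
    have h8 := LDs_append h3 h7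
    simpa using h8
  · rw [step_push hc]
    exact ⟨w, [], rfl, h, D_nil⟩

theorem LDs_run (w : List A3) : ∀ (s : List A3) (u : List (Option A3)), LDs s u →
    LDs (run w s) (u ++ so w) := by
  induction w with
  | nil => intro s u h; simpa [so, run_nil] using h
  | cons c w ih =>
    intro s u h
    have := ih _ _ (LDs_step c h)
    simpa [so, run_cons] using this

theorem LDs_nf (w : List A3) : LDs (nf w) (so w) := LDs_run w [] [] D_nil

theorem S_build (s : List A3) : ∀ (u v m : List (Option A3)), LDs s u → LDs s v → G .S m →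
    G .S (u ++ m ++ v.reverse) := by
  induction s with
  | nil =>
    intro u v m hu hv hm
    exact two (A := .S) (B := .S) (C := .Dr) (by simp [rl])
      (two (A := .S) (B := .D) (C := .S) (by simp [rl]) hu hm) (D_rev hv)
  | cons c s ih =>
    intro u v m hu hv hm
    obtain ⟨u1, d1, rfl, h1, h2⟩ := hu
    obtain ⟨v1, d2, rfl, h3, h4⟩ := hv
    have h5 : G .S ((d1 ++ m) ++ d2.reverse) :=
      two (A := .S) (B := .S) (C := .Dr) (by simp [rl])
        (two (A := .S) (B := .D) (C := .S) (by simp [rl]) h2 hm) (D_rev h4)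
    have h6 : G .S (some c :: ((d1 ++ m) ++ d2.reverse ++ [some c])) := by
      cases c <;> exact wrap (by simp [rl]) h5
    have h7 := ih u1 v1 _ h1 h3 h6
    simpa using h7

/-- The word problem. -/
def WP : Language (Option A3) :=
  {w | ∃ u v : List A3, w = u.map some ++ none :: (v.map some).reverse ∧ mkw u = mkw v}

theorem wp_cf : WP.IsContextFree := by
  refine ⟨gr, ?_⟩
  ext w
  constructor
  · intro h
    have h0 : G .S w := h
    have h1 := sound (g := gr) sound_rules (s := [nonterminal Nt.S]) h0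
    obtain ⟨w1, w2, rfl, h2, h3⟩ := h1
    have h3' : w2 = [] := h3
    subst h3'
    rw [List.append_nil]
    exact h2
  · rintro ⟨u, v, rfl, h⟩
    show G .S _
    have h1 := LDs_nf u
    have h2 := LDs_nf v
    rw [← nf_eq h] at h2
    have := S_build _ _ _ _ h1 h2 S_hash
    simpa [so] using this

/-! ### The group of units -/

/-- Stacks made of blocks `x a^n` and `x a^n y`. -/
inductive Good : List A3 → Prop
  | nil : Good []
  | open_ (n : ℕ) (s : List A3) : Good s → Good (List.replicate n a ++ x :: s)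
  | closed (n : ℕ) (s : List A3) : Good s → Good (B n ++ s)

theorem good_tail {c : A3} {s : List A3} (h : Good (c :: s)) : Good s := by
  generalize hl : c :: s = l at h
  cases h with
  | nil => simp at hl
  | open_ n t ht =>
    cases n with
    | zero =>
      simp only [List.replicate_zero, List.nil_append, List.cons.injEq] at hl
      rw [hl.2]; exact ht
    | succ n =>
      simp only [List.replicate_succ, List.cons_append, List.cons.injEq] at hl
      rw [hl.2]; exact Good.open_ n t ht
  | closed n t ht =>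
    simp only [B, List.cons_append, List.cons.injEq] at hl
    rw [hl.2, List.append_assoc]
    exact Good.open_ n t ht

theorem good_of_run (w : List A3) : ∀ s : List A3, run w s = [] → Good s := by
  induction w with
  | nil => intro s h; rw [run_nil] at h; rw [h]; exact Good.nil
  | cons c w ih =>
    intro s h
    rw [run_cons] at h
    have h1 := ih _ h
    by_cases hc : c = y ∧ ∃ t n, s = pat n ++ t
    · obtain ⟨rfl, t, n, rfl⟩ := hc
      rw [step_pop] at h1
      have e : pat n ++ t = List.replicate n a ++ x :: (B n ++ t) := by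
        rw [pat_append]; simp [B]
      rw [e]
      exact Good.open_ n _ (Good.closed n _ h1)
    · rw [step_push hc] at h1
      exact good_tail h1

/-- The exponent sum of `x` minus the exponent sum of `y`. -/
def ht (s : List A3) : ℤ := (s.count x : ℤ) - (s.count y : ℤ)

theorem ht_append (s t : List A3) : ht (s ++ t) = ht s + ht t := by
  simp only [ht, List.count_append]; push_cast; ring

theorem ht_cons (c : A3) (t : List A3) : ht (c :: t) = ht [c] + ht t := ht_append [c] t

theorem ht_rep (n : ℕ) : ht (List.replicate n a) = 0 := by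
  simp [ht, List.count_replicate]

theorem ht_x : ht [x] = 1 := by decide
theorem ht_y : ht [y] = -1 := by decide

theorem ht_pat (n : ℕ) : ht (pat n) = 1 := by
  unfold pat
  rw [ht_append, ht_cons x, ht_cons y, ht_append, ht_rep, ht_x, ht_y]; norm_num

theorem ht_B (n : ℕ) : ht (B n) = 0 := by
  unfold B
  rw [ht_cons y, ht_append, ht_rep, ht_x, ht_y]; norm_num

theorem ht_step (c : A3) (s : List A3) : ht (step c s) = ht s + ht [c] := by
  by_cases hc : c = y ∧ ∃ t n, s = pat n ++ t
  · obtain ⟨rfl, t, n, rfl⟩ := hc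
    rw [step_pop, ht_append, ht_pat, ht_y]; ring
  · rw [step_push hc, ht_cons c s]; ring

theorem ht_run (w : List A3) : ∀ s : List A3, ht (run w s) = ht s + ht w := by
  induction w with
  | nil => intro s; rw [run_nil]; simp [ht]
  | cons c w ih => intro s; rw [run_cons, ih, ht_step, ht_cons c w]; ring

theorem ht_nf (w : List A3) : ht (nf w) = ht w := by
  rw [nf, ht_run]; simp [ht]

theorem good_ht {s : List A3} (h : Good s) : 0 ≤ ht s := by
  induction h with
  | nil => simp [ht]
  | open_ n s _ ih => rw [ht_append, ht_cons x, ht_rep, ht_x]; omega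
  | closed n s _ ih => rw [ht_append, ht_B]; omega

/-- Stacks made of blocks `x a^n y`; the list gives the exponents. -/
def bks (l : List ℕ) : List A3 := (l.map B).flatten

theorem good_closed {s : List A3} (h : Good s) (h0 : ht s = 0) : ∃ l, s = bks l := by
  induction h with
  | nil => exact ⟨[], rfl⟩
  | open_ n s hs ih =>
    exfalso
    have := good_ht hs
    rw [ht_append, ht_cons x, ht_rep, ht_x] at h0
    omega
  | closed n s hs ih =>
    rw [ht_append, ht_B] at h0
    obtain ⟨l, hl⟩ := ih (by omega)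
    exact ⟨n :: l, by rw [hl]; simp [bks]⟩

theorem unit_blocks (g : Mˣ) : ∃ l, (g : M) = mks (bks l) := by
  obtain ⟨u, hu⟩ := PresentedMonoid.surjective_mk (g : M)
  obtain ⟨v, hv⟩ := PresentedMonoid.surjective_mk ((g⁻¹ : Mˣ) : M)
  obtain ⟨u, rfl⟩ := FreeMonoid.ofList.surjective u
  obtain ⟨v, rfl⟩ := FreeMonoid.ofList.surjective v
  rw [mk_ofList] at hu hv
  have h1 : mkw (u ++ v) = mkw [] := by rw [mkw_append, hu, hv, g.mul_inv, mkw_nil]
  have h2 : mkw (v ++ u) = mkw [] := by rw [mkw_append, hu, hv, g.inv_mul, mkw_nil]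
  have h3 : run v (nf u) = [] := by
    have := nf_eq h1
    rw [nf, run_append] at this
    exact this
  have h4 : run u (nf v) = [] := by
    have := nf_eq h2
    rw [nf, run_append] at this
    exact this
  have g1 := good_of_run _ _ h3
  have g2 := good_of_run _ _ h4
  have k1 := good_ht g1
  have k2 := good_ht g2
  have k3 : ht (nf u) + ht (nf v) = 0 := by
    have := ht_run v (nf u)
    rw [h3] at this
    rw [ht_nf v, ← this]; simp [ht]
  obtain ⟨l, hl⟩ := good_closed g1 (by omega)
  exact ⟨l, by rw [← hl, mks_nf, hu]⟩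

theorem B_rev (n : ℕ) : (B n).reverse = bl n := by
  simp [B, bl]

theorem mks_bks (l : List ℕ) : mks (bks l) = (l.reverse.map fun n => mkw (bl n)).prod := by
  induction l with
  | nil => rfl
  | cons n l ih =>
    unfold mks at ih ⊢
    have : bks (n :: l) = B n ++ bks l := by simp [bks]
    rw [this, List.reverse_append, mkw_append, ih, B_rev]
    simp

theorem B_inj {n m : ℕ} {s t : List A3} (h : B n ++ s = B m ++ t) : n = m ∧ s = t := by
  simp only [B, List.cons_append, List.append_assoc, List.cons.injEq, true_and,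
    List.nil_append] at h
  exact rep_inj _ _ _ _ h

theorem bks_inj : Function.Injective bks := by
  intro l
  induction l with
  | nil =>
    intro l' h
    cases l' with
    | nil => rfl
    | cons m l' => simp [bks, B] at h
  | cons n l ih =>
    intro l' h
    cases l' with
    | nil => simp [bks, B] at h
    | cons m l' =>
      have h' : B n ++ bks l = B m ++ bks l' := by simpa [bks] using h
      obtain ⟨h1, h2⟩ := B_inj h'
      rw [h1, ih h2]

/-- Running blocks with exponents at most `N` on a stack of such blocks. -/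
theorem run_blocks (N : ℕ) (l : List ℕ) (hl : ∀ n ∈ l, n ≤ N) : ∀ l0 : List ℕ,
    (∀ n ∈ l0, n ≤ N) → ∃ l1 : List ℕ, (∀ n ∈ l1, n ≤ N) ∧
      run ((l.map bl).flatten) (bks l0) = bks l1 := by
  induction l with
  | nil => intro l0 h0; exact ⟨l0, h0, rfl⟩
  | cons n l ih =>
    intro l0 h0
    have ih' := ih (fun m hm => hl m (List.mem_cons_of_mem _ hm))
    rw [List.map_cons, List.flatten_cons]
    by_cases hs : ∃ t, bks l0 = B n ++ t
    · obtain ⟨t, ht⟩ := hs
      cases l0 with
      | nil => simp [bks, B] at ht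
      | cons m l0 =>
        have h' : B m ++ bks l0 = B n ++ t := by rw [← ht]; simp [bks]
        obtain ⟨h1, h2⟩ := B_inj h'
        obtain ⟨l1, h3, h4⟩ := ih' l0 (fun j hj => h0 j (List.mem_cons_of_mem _ hj))
        refine ⟨l1, h3, ?_⟩
        rw [run_append, ht, run_bl_pop, ← h2, h4]
    · obtain ⟨l1, h3, h4⟩ := ih' (n :: l0) (by
        intro j hj
        rcases List.mem_cons.1 hj with rfl | hj
        · exact hl _ (by simp)
        · exact h0 j hj)
      refine ⟨l1, h3, ?_⟩
      rw [run_append, run_bl_push n _ hs]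
      have : B n ++ bks l0 = bks (n :: l0) := by simp [bks]
      rw [this, h4]

theorem prod_flatten (l : List ℕ) : (l.map fun n => mkw (bl n)).prod = mkw ((l.map bl).flatten) := by
  induction l with
  | nil => rfl
  | cons n l ih => rw [List.map_cons, List.prod_cons, ih, List.map_cons, List.flatten_cons, mkw_append]

theorem bl_unit (n : ℕ) : ∃ g : Mˣ, (g : M) = mkw (bl n) :=
  ⟨⟨mkw (bl n), mkw (bl n), bl_sq n, bl_sq n⟩, rfl⟩

theorem units_not_fg : ¬ Group.FG Mˣ := by
  intro hfg
  obtain ⟨S, hS, hfin⟩ := Group.fg_iff.1 hfg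
  choose bd hbd using unit_blocks
  obtain ⟨N, hN⟩ : ∃ N : ℕ, ∀ g ∈ S, ∀ n ∈ bd g, n ≤ N := by
    refine ⟨hfin.toFinset.sup (fun g => (bd g).sum), ?_⟩
    intro g hg n hn
    have h1 : n ≤ (bd g).sum := List.le_sum_of_mem hn
    exact h1.trans (Finset.le_sup (f := fun g => (bd g).sum) (hfin.mem_toFinset.2 hg))
  have key : ∀ g : Mˣ, g ∈ Subgroup.closure S → ∃ l : List ℕ, (∀ n ∈ l, n ≤ N) ∧
      (g : M) = (l.map fun n => mkw (bl n)).prod ∧ ((g⁻¹ : Mˣ) : M) =
        (l.reverse.map fun n => mkw (bl n)).prod := by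
    have hinv : ∀ l : List ℕ, (l.map fun n => mkw (bl n)).prod *
        (l.reverse.map fun n => mkw (bl n)).prod = 1 := by
      intro l
      induction l with
      | nil => simp
      | cons n l ih =>
        rw [List.map_cons, List.prod_cons, List.reverse_cons, List.map_append, List.prod_append]
        calc mkw (bl n) * (l.map fun n => mkw (bl n)).prod *
              ((l.reverse.map fun n => mkw (bl n)).prod * ([n].map fun n => mkw (bl n)).prod)
            = mkw (bl n) * ((l.map fun n => mkw (bl n)).prod *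
              (l.reverse.map fun n => mkw (bl n)).prod) * mkw (bl n) := by
                simp [mul_assoc]
          _ = 1 := by rw [ih, mul_one, bl_sq]
    have hinv' : ∀ (g : Mˣ) (l : List ℕ), (g : M) = (l.map fun n => mkw (bl n)).prod →
        ((g⁻¹ : Mˣ) : M) = (l.reverse.map fun n => mkw (bl n)).prod := by
      intro g l h
      have h1 := hinv l
      rw [← h] at h1
      calc ((g⁻¹ : Mˣ) : M) = (g⁻¹ : Mˣ) * ((g : M) * (l.reverse.map fun n => mkw (bl n)).prod) := by
            rw [h1, mul_one]
        _ = (l.reverse.map fun n => mkw (bl n)).prod := by rw [← mul_assoc, g.inv_mul, one_mul]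
    intro g hg
    induction hg using Subgroup.closure_induction with
    | mem g hg =>
      have e : (g : M) = ((bd g).reverse.map fun n => mkw (bl n)).prod := by
        rw [← mks_bks]; exact hbd g
      refine ⟨(bd g).reverse, ?_, e, hinv' _ _ e⟩
      intro n hn
      exact hN g hg n (List.mem_reverse.1 hn)
    | one => exact ⟨[], by simp, by simp, by simp⟩
    | mul g h _ _ ihg ihh =>
      obtain ⟨l, h1, h2, -⟩ := ihg
      obtain ⟨l', h3, h4, -⟩ := ihh
      have e : ((g * h : Mˣ) : M) = ((l ++ l').map fun n => mkw (bl n)).prod := by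
        rw [Units.val_mul, h2, h4, List.map_append, List.prod_append]
      refine ⟨l ++ l', ?_, e, hinv' _ _ e⟩
      intro n hn
      rcases List.mem_append.1 hn with hn | hn
      · exact h1 n hn
      · exact h3 n hn
    | inv g _ ih =>
      obtain ⟨l, h1, h2, h3⟩ := ih
      refine ⟨l.reverse, fun n hn => h1 n (List.mem_reverse.1 hn), h3, hinv' _ _ h3⟩
  obtain ⟨g, hg⟩ := bl_unit (N + 1)
  obtain ⟨l, h1, h2, -⟩ := key g (by rw [hS]; trivial)
  rw [hg, prod_flatten] at h2
  have h3 := nf_eq h2
  obtain ⟨l1, h4, h5⟩ := run_blocks N l h1 [] (by simp)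
  have h6 : nf ((l.map bl).flatten) = bks l1 := h5
  have h7 : nf (bl (N + 1)) = bks [N + 1] := by
    have := run_bl_push (N + 1) [] (by rintro ⟨t, ht⟩; simp [B] at ht)
    rw [nf, this]; simp [bks]
  rw [h6, h7] at h3
  have h8 := bks_inj h3
  have h9 := h4 (N + 1) (by rw [← h8]; simp)
  omega

/-- A monoid with context-free word problem whose group of units is not finitely generated. -/
theorem result : ∃ (N : Type) (_ : Monoid N) (α : Type) (_ : Fintype α) (f : α → N),
    Submonoid.closure (Set.range f) = ⊤ ∧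
    Language.IsContextFree ({w | ∃ u v : List α, w = u.map some ++ none :: (v.map some).reverse ∧
      (u.map f).prod = (v.map f).prod} : Language (Option α)) ∧
    ¬ Group.FG Nˣ :=
  ⟨M, inferInstance, A3, inferInstance, PresentedMonoid.of rels,
    PresentedMonoid.closure_range_of rels, wp_cf, units_not_fg⟩

end Pool.Agent.Results.MP_435286_al.InfinitelyGeneratedUnits
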